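import Pool.Agent.H97R2.LPB.Props

/-! Certificate for `Phi + 2 Ux` on `[0,2]` (helper756): tangents of the concave smooth part, and
the integer checker for sums of `Psi` with a linear function. -/

open Polynomial Filter Topology MeasureTheory Pool.Agent.H337R2 Pool.Agent.LP

namespace Pool.Agent.LPB

namespace C756

/-- the cell check with different thresholds at the two end points -/
def cellL (M : ℕ) (l : List (ℤ × ℤ)) (A0 A1 : ℤ) (x0 x1 : ℤ) : Bool :=
  decide (x0 < x1) &&
  (l.all fun s => (decide (s.2 ≤ x0) || decide (x1 ≤ s.2)) && decide (|x0 - s.2| < 1048576) &&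
    decide (|x1 - s.2| < 1048576)) &&
  (let g := (l.map (gapS x0 x1)).sum
   decide (Eup M l x0 + g ≤ A0) && decide (Eup M l x1 + g ≤ A1))

/-- a cell with a linear function -/
lemma cellL_spec {Dc M : ℕ} (hD : 0 < Dc) (hM : 1 ≤ M) (hM2 : M < 2 ^ 20) {l : List (ℤ × ℤ)}
    {A0 A1 : ℤ} {x0 x1 : ℤ} (h : cellL M l A0 A1 x0 x1 = true) (a c d : ℝ)
    (hA0 : (A0 : ℝ) ≤ (a - (c + d * (x0 / M))) * (10 ^ 12 * Dc * M))
    (hA1 : (A1 : ℝ) ≤ (a - (c + d * (x1 / M))) * (10 ^ 12 * Dc * M)) (v : ℝ)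
    (h0 : (x0 : ℝ) / M ≤ v) (h1 : v ≤ (x1 : ℝ) / M) : EF Dc M l v + (c + d * v) ≤ a := by
  unfold cellL at h
  simp only [Bool.and_eq_true, decide_eq_true_eq, List.all_eq_true, Bool.or_eq_true] at h
  obtain ⟨⟨hx, hall⟩, hE0, hE1⟩ := h
  have hD' : (0 : ℝ) < Dc := by exact_mod_cast hD
  have hM' : (0 : ℝ) < M := by exact_mod_cast hM
  have hxR : (x0 : ℝ) < x1 := by exact_mod_cast hx
  obtain ⟨w, hw'⟩ : ∃ w : ℝ, w = v * M := ⟨_, rfl⟩
  have hv : v = w / M := by rw [hw']; field_simp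
  have h0' : (x0 : ℝ) ≤ w := by rw [hw']; rwa [div_le_iff₀ hM'] at h0
  have h1' : w ≤ x1 := by rw [hw']; rwa [le_div_iff₀ hM'] at h1
  set q : ℝ := (w - x0) / (x1 - x0) with hq
  set p : ℝ := 1 - q with hp
  have hd : (0 : ℝ) < x1 - x0 := by linarith
  have hq0 : 0 ≤ q := div_nonneg (by linarith) hd.le
  have hq1 : q ≤ 1 := by rw [hq, div_le_one hd]; linarith
  have hp0 : 0 ≤ p := by rw [hp]; linarith
  have hpq : p + q = 1 := by rw [hp]; ring
  have hw : w = p * x0 + q * x1 := by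
    have : q * (x1 - x0) = w - x0 := by rw [hq]; field_simp
    rw [hp]; linarith
  have hs : ∀ s ∈ l, s.2 ≤ x0 ∨ x1 ≤ s.2 := fun s hsl => (hall s hsl).1.1
  have hc := GR_cell hx l hs hp0 hq0 hpq
  rw [← hw] at hc
  have ht : T1R l w = p * T1R l x0 + q * T1R l x1 := by rw [hw]; exact T1R_affine l _ _ hpq
  have e0 := Eup_spec hM hM2 l x0 (fun s hsl => by have := (hall s hsl).1.2; norm_num; exact this)
  have e1 := Eup_spec hM hM2 l x1 (fun s hsl => by have := (hall s hsl).2; norm_num; exact this)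
  have hE0' : (Eup M l x0 : ℝ) + (((l.map (gapS x0 x1)).sum : ℤ) : ℝ) ≤ A0 := by exact_mod_cast hE0
  have hE1' : (Eup M l x1 : ℝ) + (((l.map (gapS x0 x1)).sum : ℤ) : ℝ) ≤ A1 := by exact_mod_cast hE1
  have hEF := EF_eq hD (by omega : 0 < M) l w
  set g : ℝ := (((l.map (gapS x0 x1)).sum : ℤ) : ℝ)
  have hfin : 10 ^ 12 * ((Dc : ℝ) * M * EF Dc M l (w / M)) ≤ p * A0 + q * A1 := by
    rw [hEF, ht]
    have a0 := mul_le_mul_of_nonneg_left e0 hp0
    have a1 := mul_le_mul_of_nonneg_left e1 hq0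
    have b0 := mul_le_mul_of_nonneg_left hE0' hp0
    have b1 := mul_le_mul_of_nonneg_left hE1' hq0
    have hgg : g = p * g + q * g := by rw [← add_mul, hpq, one_mul]
    nlinarith [a0, a1, b0, b1, hc, hgg]
  have hlin : p * A0 + q * A1 ≤ (a - (c + d * (w / M))) * (10 ^ 12 * Dc * M) := by
    have a0 := mul_le_mul_of_nonneg_left hA0 hp0
    have a1 := mul_le_mul_of_nonneg_left hA1 hq0
    refine (add_le_add a0 a1).trans (le_of_eq ?_)
    rw [hw, hp]
    ring
  have hpos : (0 : ℝ) < 10 ^ 12 * Dc * M := by positivity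
  have : EF Dc M l (w / M) * ((10 : ℝ) ^ 12 * Dc * M) ≤
      (a - (c + d * (w / M))) * ((10 : ℝ) ^ 12 * Dc * M) := by
    have e9 : EF Dc M l (w / M) * ((10 : ℝ) ^ 12 * Dc * M) = (10 : ℝ) ^ 12 * ((Dc : ℝ) * M * EF Dc M l (w / M)) := by
      ring
    rw [e9]
    exact le_trans hfin hlin
  have h9 := le_of_mul_le_mul_right this hpos
  rw [hv]
  linarith

/-- the list of `2 Ux` -/
def lU : List (ℤ × ℤ) := [(192, -15), (-192, 15), (-160, 48), (160, -48)]

lemma Ux_eq (v : ℝ) : 2 * Ux v = EF 165 16 lU v := by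
  unfold Ux EF lU
  simp only [List.map_cons, List.map_nil, List.sum_cons, List.sum_nil]
  have e1 : v - ((-15 : ℤ) : ℝ) / (16 : ℕ) = v + 15 / 16 := by push_cast; ring
  have e2 : v - ((15 : ℤ) : ℝ) / (16 : ℕ) = v - 15 / 16 := by push_cast; ring
  have e3 : v - ((48 : ℤ) : ℝ) / (16 : ℕ) = v - 3 := by push_cast; ring
  have e4 : v - ((-48 : ℤ) : ℝ) / (16 : ℕ) = v + 3 := by push_cast; ring
  rw [e1, e2, e3, e4]
  push_cast
  ring

/-- the smooth part -/
noncomputable def PP (t : ℝ) : ℝ := 2 * Pc 1 t - Pc 5 t - Real.pi * t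

lemma arctan_le_self {x : ℝ} (hx : 0 ≤ x) : Real.arctan x ≤ x := by
  rcases eq_or_lt_of_le hx with h | h
  · rw [← h]; simp
  · by_contra hcon
    push Not at hcon
    have h2 : x < Real.pi / 2 := lt_trans hcon (Real.arctan_lt_pi_div_two x)
    have h1 : x < Real.tan x := Real.lt_tan h h2
    have h3 : Real.tan x < Real.tan (Real.arctan x) :=
      Real.tan_lt_tan_of_lt_of_lt_pi_div_two (by linarith) (Real.arctan_lt_pi_div_two x) hcon
    rw [Real.tan_arctan] at h3
    linarith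

lemma le_arctan {x : ℝ} (hx : 0 ≤ x) : x - x ^ 3 / 3 ≤ Real.arctan x := by
  have hmono : MonotoneOn (fun t : ℝ => Real.arctan t - (t - t ^ 3 / 3)) (Set.Ici 0) := by
    have hd : ∀ t : ℝ, HasDerivAt (fun t : ℝ => Real.arctan t - (t - t ^ 3 / 3))
        (1 / (1 + t ^ 2) - (1 - t ^ 2)) t := by
      intro t
      have h1 := Real.hasDerivAt_arctan t
      have h2 : HasDerivAt (fun t : ℝ => t - t ^ 3 / 3) (1 - t ^ 2) t := by
        have h4 : HasDerivAt (fun t : ℝ => t ^ 3) (3 * t ^ 2) t := by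
          simpa using hasDerivAt_pow 3 t
        have h5 := (hasDerivAt_id t).sub (h4.div_const 3)
        have h6 : (1 : ℝ) - 3 * t ^ 2 / 3 = 1 - t ^ 2 := by ring
        rw [h6] at h5
        exact h5
      exact h1.sub h2
    apply monotoneOn_of_deriv_nonneg (convex_Ici 0)
    · exact fun t _ => (hd t).continuousAt.continuousWithinAt
    · exact fun t _ => (hd t).differentiableAt.differentiableWithinAt
    · intro t _
      rw [(hd t).deriv]
      have h3 : (0 : ℝ) < 1 + t ^ 2 := by positivity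
      rw [sub_nonneg, le_div_iff₀ h3]
      nlinarith [sq_nonneg (t ^ 2)]
  have h5 := hmono (Set.mem_Ici.2 le_rfl) (Set.mem_Ici.2 hx) hx
  have h6 : Real.arctan 0 - ((0 : ℝ) - 0 ^ 3 / 3) = 0 := by simp
  have h7 : Real.arctan 0 - ((0 : ℝ) - 0 ^ 3 / 3) ≤ Real.arctan x - (x - x ^ 3 / 3) := h5
  linarith

/-- the derivative of the smooth part in terms of `arctan m`, `arctan (m / 5)` -/
lemma der_eq {m : ℝ} (hm : 0 < m) : 2 * Real.arctan (1 / m) - Real.arctan (5 / m) - Real.pi =
    -(Real.pi / 2) - 2 * Real.arctan m + Real.arctan (m / 5) := by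
  have h1 : Real.arctan (1 / m) = Real.pi / 2 - Real.arctan m := by
    rw [one_div]
    exact Real.arctan_inv_of_pos hm
  have h2 : Real.arctan (5 / m) = Real.pi / 2 - Real.arctan (m / 5) := by
    have := Real.arctan_inv_of_pos (show 0 < m / 5 by positivity)
    rwa [inv_div] at this
  rw [h1, h2]
  ring

/-- the tangent line -/
lemma tangent (h : S_shape) {m : ℝ} (hm : 0 < m) (hm2 : m ≤ 387 / 100) {v : ℝ} (hv : 0 ≤ v)
    (hv2 : v ≤ 387 / 100) : PP v ≤ PP m + (2 * Real.arctan (1 / m) - Real.arctan (5 / m) - Real.pi) * (v - m) := by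
  obtain ⟨hd, hc, _⟩ := h
  have hd' := hd m hm
  change ConcaveOn ℝ (Set.Icc 0 (387 / 100)) PP at hc
  change HasDerivAt PP _ m at hd'
  rcases lt_trichotomy v m with h1 | h1 | h1
  · have h2 := hc.le_slope_of_hasDerivAt (x := v) (y := m) ⟨hv, hv2⟩ ⟨hm.le, hm2⟩ h1 hd'
    rw [slope_def_field, le_div_iff₀ (by linarith)] at h2
    linarith
  · rw [h1]; linarith
  · have h2 := hc.slope_le_of_hasDerivAt (x := m) (y := v) ⟨hm.le, hm2⟩ ⟨hv, hv2⟩ h1 hd'
    rw [slope_def_field, div_le_iff₀ (by linarith)] at h2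
    linarith

/-- the tangent line, constant term -/
lemma tangent' (h : S_shape) {m : ℝ} (hm : 0 < m) (hm2 : m ≤ 387 / 100) {v : ℝ} (hv : 0 ≤ v)
    (hv2 : v ≤ 387 / 100) (c d : ℝ) (hc : 3 + Real.log (1 + m ^ 2) - 5 / 2 * Real.log (25 + m ^ 2) ≤ c)
    (hd : -(Real.pi / 2) - 2 * Real.arctan m + Real.arctan (m / 5) ≤ d) :
    PP v ≤ c + d * v := by
  have h1 := tangent h hm hm2 hv hv2
  have h2 : PP m = 3 + Real.log (1 + m ^ 2) - 5 / 2 * Real.log (25 + m ^ 2) +
      (2 * Real.arctan (1 / m) - Real.arctan (5 / m) - Real.pi) * m := by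
    unfold PP Pc
    norm_num
    ring
  rw [h2] at h1
  rw [der_eq hm] at h1
  have h3 : (-(Real.pi / 2) - 2 * Real.arctan m + Real.arctan (m / 5)) * v ≤ d * v :=
    mul_le_mul_of_nonneg_right hd hv
  linarith

lemma log_up (j : ℕ) (hj : 1 ≤ j) (hj2 : j < 2 ^ 20) (A : ℤ) (hA : lnA j = A) :
    Real.log j ≤ (A + 20000) / 10 ^ 12 := by
  have h := abs_le.mp (lnA_spec j hj hj2)
  rw [hA] at h
  rw [le_div_iff₀ (by positivity)]
  push_cast at h
  linarith [h.2]

lemma log_lo (j : ℕ) (hj : 1 ≤ j) (hj2 : j < 2 ^ 20) (A : ℤ) (hA : lnA j = A) :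
    (A - 20000) / 10 ^ 12 ≤ Real.log j := by
  have h := abs_le.mp (lnA_spec j hj hj2)
  rw [hA] at h
  rw [div_le_iff₀ (by positivity)]
  push_cast at h
  linarith [h.1]

/-! ### The six cells -/

/-- `arctan (3/4) = π/4 - arctan (1/7)` -/
lemma arctan_3_4 : Real.pi / 4 - 1 / 7 ≤ Real.arctan (3 / 4) := by
  have h := Real.arctan_add (x := 3 / 4) (y := 1 / 7) (by norm_num)
  have h1 : ((3 : ℝ) / 4 + 1 / 7) / (1 - 3 / 4 * (1 / 7)) = 1 := by norm_num
  rw [h1, Real.arctan_one] at h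
  have h2 := arctan_le_self (x := 1 / 7) (by norm_num)
  linarith

/-- `arctan (3/2) = π/4 + arctan (1/5)` -/
lemma arctan_3_2 : Real.pi / 4 + (1 / 5 - 1 / 375) ≤ Real.arctan (3 / 2) := by
  have h := Real.arctan_add (x := 1) (y := 1 / 5) (by norm_num)
  have h1 : ((1 : ℝ) + 1 / 5) / (1 - 1 * (1 / 5)) = 3 / 2 := by norm_num
  rw [h1, Real.arctan_one] at h
  have h2 := le_arctan (x := 1 / 5) (by norm_num)
  norm_num at h2
  linarith

lemma T14 (h : S_shape) {v : ℝ} (hv : 0 ≤ v) (hv2 : v ≤ 387 / 100) :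
    PP v ≤ -(4992 / 1000) + -(2010 / 1000) * v := by
  refine tangent' h (m := 1 / 4) (by norm_num) (by norm_num) hv hv2 _ _ ?_ ?_
  · have e1 : (1 : ℝ) + (1 / 4) ^ 2 = (17 : ℕ) / (16 : ℕ) := by norm_num
    have e2 : (25 : ℝ) + (1 / 4) ^ 2 = (401 : ℕ) / (16 : ℕ) := by norm_num
    rw [e1, e2, Real.log_div (by norm_num) (by norm_num), Real.log_div (by norm_num) (by norm_num)]
    have l1 := log_up 17 (by norm_num) (by norm_num) 2833213344056 (by decide +kernel)
    have l2 := log_up 16 (by norm_num) (by norm_num) 2772588722240 (by decide +kernel)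
    have l3 := log_lo 401 (by norm_num) (by norm_num) 5993961427322 (by decide +kernel)
    push_cast at l1 l2 l3 ⊢
    linarith
  · have h1 := le_arctan (x := 1 / 4) (by norm_num)
    have h2 := arctan_le_self (x := 1 / 4 / 5) (by norm_num)
    have h3 := Real.pi_gt_d4
    norm_num at h1 h2 h3 ⊢
    linarith

lemma T34 (h : S_shape) {v : ℝ} (hv : 0 ≤ v) (hv2 : v ≤ 387 / 100) :
    PP v ≤ -(4656 / 1000) + -(2705 / 1000) * v := by
  refine tangent' h (m := 3 / 4) (by norm_num) (by norm_num) hv hv2 _ _ ?_ ?_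
  · have e1 : (1 : ℝ) + (3 / 4) ^ 2 = (25 : ℕ) / (16 : ℕ) := by norm_num
    have e2 : (25 : ℝ) + (3 / 4) ^ 2 = (409 : ℕ) / (16 : ℕ) := by norm_num
    rw [e1, e2, Real.log_div (by norm_num) (by norm_num), Real.log_div (by norm_num) (by norm_num)]
    have l1 := log_up 25 (by norm_num) (by norm_num) 3218875824886 (by decide +kernel)
    have l2 := log_up 16 (by norm_num) (by norm_num) 2772588722240 (by decide +kernel)
    have l3 := log_lo 409 (by norm_num) (by norm_num) 6013715156049 (by decide +kernel)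
    push_cast at l1 l2 l3 ⊢
    linarith
  · have h1 := arctan_3_4
    have h2 := arctan_le_self (x := 3 / 4 / 5) (by norm_num)
    have h3 := Real.pi_gt_d4
    norm_num at h1 h2 h3 ⊢
    linarith

lemma T1 (h : S_shape) {v : ℝ} (hv : 0 ≤ v) (hv2 : v ≤ 387 / 100) :
    PP v ≤ -(4452 / 1000) + -(2941 / 1000) * v := by
  refine tangent' h (m := 1) (by norm_num) (by norm_num) hv hv2 _ _ ?_ ?_
  · have e1 : (1 : ℝ) + 1 ^ 2 = (2 : ℕ) := by norm_num
    have e2 : (25 : ℝ) + 1 ^ 2 = (26 : ℕ) := by norm_num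
    rw [e1, e2]
    have l1 := log_up 2 (by norm_num) (by norm_num) 693147180560 (by decide +kernel)
    have l3 := log_lo 26 (by norm_num) (by norm_num) 3258096538024 (by decide +kernel)
    push_cast at l1 l3 ⊢
    linarith
  · have h2 := arctan_le_self (x := 1 / 5) (by norm_num)
    have h3 := Real.pi_gt_d4
    rw [Real.arctan_one]
    norm_num at h2 h3 ⊢
    linarith

lemma T32 (h : S_shape) {v : ℝ} (hv : 0 ≤ v) (hv2 : v ≤ 387 / 100) :
    PP v ≤ -(4083 / 1000) + -(3236 / 1000) * v := by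
  refine tangent' h (m := 3 / 2) (by norm_num) (by norm_num) hv hv2 _ _ ?_ ?_
  · have e1 : (1 : ℝ) + (3 / 2) ^ 2 = (13 : ℕ) / (4 : ℕ) := by norm_num
    have e2 : (25 : ℝ) + (3 / 2) ^ 2 = (109 : ℕ) / (4 : ℕ) := by norm_num
    rw [e1, e2, Real.log_div (by norm_num) (by norm_num), Real.log_div (by norm_num) (by norm_num)]
    have l1 := log_up 13 (by norm_num) (by norm_num) 2564949357464 (by decide +kernel)
    have l2 := log_up 4 (by norm_num) (by norm_num) 1386294361120 (by decide +kernel)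
    have l3 := log_lo 109 (by norm_num) (by norm_num) 4691347882229 (by decide +kernel)
    push_cast at l1 l2 l3 ⊢
    linarith
  · have h1 := arctan_3_2
    have h2 := arctan_le_self (x := 3 / 2 / 5) (by norm_num)
    have h3 := Real.pi_gt_d4
    norm_num at h1 h2 h3 ⊢
    linarith

lemma F_eq {v : ℝ} (hv : 0 ≤ v) : Phi v + 2 * Ux v = EF 165 16 lU v + PP v := by
  rw [Ux_eq]
  unfold Phi PP
  rw [abs_of_nonneg hv]
  ring

end C756

open C756 in
theorem V1_cert1 (h : S_shape) : S_cert1 := by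
  intro v hv hv2
  rw [F_eq hv]
  have hv3 : v ≤ 387 / 100 := by linarith
  rcases le_total v (1 / 2) with a1 | a1
  · have h1 := cellL_spec (Dc := 165) (M := 16) (by norm_num) (by norm_num) (by norm_num) (l := lU)
      (A0 := -4377120000000000) (A1 := -1723920000000000) (x0 := 0) (x1 := 8) (by decide +kernel)
      (-(665 / 100)) (-(4992 / 1000)) (-(2010 / 1000)) (by norm_num) (by norm_num) v
      (by norm_num; linarith) (by norm_num; linarith)
    have h2 := T14 h hv hv3
    linarith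
  rcases le_total v (15 / 16) with a2 | a2
  · have h1 := cellL_spec (Dc := 165) (M := 16) (by norm_num) (by norm_num) (by norm_num) (l := lU)
      (A0 := -1693560000000000) (A1 := 1430715000000000) (x0 := 8) (x1 := 15) (by decide +kernel)
      (-(665 / 100)) (-(4656 / 1000)) (-(2705 / 1000)) (by norm_num) (by norm_num) v
      (by norm_num; linarith) (by norm_num; linarith)
    have h2 := T34 h hv hv3
    linarith
  rcases le_total v (17 / 16) with a3 | a3
  · have h1 := cellL_spec (Dc := 165) (M := 16) (by norm_num) (by norm_num) (by norm_num) (l := lU)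
      (A0 := 1476255000000000) (A1 := 2446785000000000) (x0 := 15) (x1 := 17) (by decide +kernel)
      (-(665 / 100)) (-(4452 / 1000)) (-(2941 / 1000)) (by norm_num) (by norm_num) v
      (by norm_num; linarith) (by norm_num; linarith)
    have h2 := T1 h hv hv3
    linarith
  rcases le_total v (5 / 4) with a4 | a4
  · have h1 := cellL_spec (Dc := 165) (M := 16) (by norm_num) (by norm_num) (by norm_num) (l := lU)
      (A0 := 2446785000000000) (A1 := 3902580000000000) (x0 := 17) (x1 := 20) (by decide +kernel)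
      (-(665 / 100)) (-(4452 / 1000)) (-(2941 / 1000)) (by norm_num) (by norm_num) v
      (by norm_num; linarith) (by norm_num; linarith)
    have h2 := T1 h hv hv3
    linarith
  rcases le_total v (3 / 2) with a5 | a5
  · have h1 := cellL_spec (Dc := 165) (M := 16) (by norm_num) (by norm_num) (by norm_num) (l := lU)
      (A0 := 3901920000000000) (A1 := 6037680000000000) (x0 := 20) (x1 := 24) (by decide +kernel)
      (-(665 / 100)) (-(4083 / 1000)) (-(3236 / 1000)) (by norm_num) (by norm_num) v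
      (by norm_num; linarith) (by norm_num; linarith)
    have h2 := T32 h hv hv3
    linarith
  · have h1 := cellL_spec (Dc := 165) (M := 16) (by norm_num) (by norm_num) (by norm_num) (l := lU)
      (A0 := 6037680000000000) (A1 := 10309200000000000) (x0 := 24) (x1 := 32) (by decide +kernel)
      (-(665 / 100)) (-(4083 / 1000)) (-(3236 / 1000)) (by norm_num) (by norm_num) v
      (by norm_num; linarith) (by norm_num; linarith)
    have h2 := T32 h hv hv3
    linarith

end Pool.Agent.LPB
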